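import Pool.Agent.W2helper32.FR.BFin

/-!
# Fröberg's formula in five variables if two of the degrees are two

`n = 5`, any number `r ≥ 5` of generic forms, two of them quadrics, the other degrees are arbitrary:
the Hilbert function of the quotient is the expected one in all degrees.

The two quadrics are specialised to the equations `x_0 x_3 = x_1 ^ 2`,
`x_2 ^ 2 = x_1 x_3 + x_0 ^ 2` of an elliptic curve in three-space, the form of least degree `e` among
the others to `z ^ e` for the fifth variable `z`. For the other forms the tangent space argument is
combined with the filtration by the powers of `z`. The inequality for a linear system `U` on the curve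
and its square is proved by the base point free pencil trick and by degree sequences; a coupling of
the pieces of the two filtrations sums it up.
-/

set_option autoImplicit false

namespace Pool.Agent.W2helper32.Variants.FiveVariablesTwoQuadrics

open Pool.Agent.Results.MP_3395a4_ag.HighDegreesExact

/-- Let `K` be a field of characteristic zero, `5 ≤ r` and let `d 0, …, d (r - 1)` be positive
integers such that two of them are equal to `2`. For all forms `f i` of degrees `d i` in five
variables off a hypersurface in the space of the coefficients, the Hilbert function of the quotient by
the ideal of the `f i` is the one predicted by Fröberg, in all degrees. -/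
theorem result (K : Type) [Field K] [CharZero K] (r : ℕ) (hr : 5 ≤ r) (d : Fin r → ℕ)
    (hd : ∀ i, 1 ≤ d i) (h : ∃ i j, i ≠ j ∧ d i = 2 ∧ d j = 2) :
    ForGeneric K 5 d fun f => ∀ k, hilb f k = fro 5 d k := by
  obtain ⟨i, j, hij, hi, hj⟩ := h
  exact Pool.Agent.W2helper32.FR.twoQuadrics K d hd hr i j hij hi hj

end Pool.Agent.W2helper32.Variants.FiveVariablesTwoQuadrics
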